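import Mathlib
import Pool.Agent.W274.Arb.Walk

set_option autoImplicit false

/-! Copy of the proof of helper274 (frozen statement S07887) as a lemma which does not import the
frozen statement. -/

open Pool.Agent

namespace Pool.Agent.W767.AR

theorem main :
  ∀ (V E : Type) [Fintype V] [Fintype E] (tl hd : E → V),
    (∃ f : V → ℕ, ∀ a : E, f (tl a) < f (hd a)) →
    ∀ (k : ℕ) (r : Fin k → V) (U : Fin k → Set V),
      (∀ i, r i ∈ U i) →
      (∀ i, ∀ (n : ℕ) (x : Fin (n+1) → V) (e : Fin n → E),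
          (∀ m : Fin n, tl (e m) = x m.castSucc ∧ hd (e m) = x m.succ) →
          x 0 ∈ U i → x (Fin.last n) ∈ U i → ∀ m, x m ∈ U i) →
      ((∃ F : Fin k → Set E,
          (∀ i, ∀ a ∈ F i, tl a ∈ U i ∧ hd a ∈ U i ∧ hd a ≠ r i) ∧
          (∀ i, ∀ a ∈ F i, ∀ b ∈ F i, hd a = hd b → a = b) ∧
          (∀ i, ∀ u ∈ U i, ∃ (n : ℕ) (x : Fin (n+1) → V) (e : Fin n → E),
              x 0 = r i ∧ x (Fin.last n) = u ∧
              ∀ m : Fin n, e m ∈ F i ∧ tl (e m) = x m.castSucc ∧ hd (e m) = x m.succ) ∧
          (∀ v : V, ∀ i j : Fin k, i ≠ j → v ∈ U i → v ∈ U j →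
            ∀ (n₁ : ℕ) (x₁ : Fin (n₁+1) → V) (e₁ : Fin n₁ → E)
              (n₂ : ℕ) (x₂ : Fin (n₂+1) → V) (e₂ : Fin n₂ → E),
              x₁ 0 = r i → x₁ (Fin.last n₁) = v →
              (∀ m : Fin n₁, e₁ m ∈ F i ∧ tl (e₁ m) = x₁ m.castSucc ∧ hd (e₁ m) = x₁ m.succ) →
              x₂ 0 = r j → x₂ (Fin.last n₂) = v →
              (∀ m : Fin n₂, e₂ m ∈ F j ∧ tl (e₂ m) = x₂ m.castSucc ∧ hd (e₂ m) = x₂ m.succ) →
              Disjoint (Set.range e₁) (Set.range e₂) ∧
              Set.range x₁ ∩ Set.range x₂ = ({v} : Set V) ∪ ({r i} ∩ {r j})))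
      ↔
      (∀ v : V, ∃ (n : Fin k → ℕ) (x : (i : Fin k) → Fin (n i + 1) → V)
          (e : (i : Fin k) → Fin (n i) → E),
          (∀ i, v ∈ U i → x i 0 = r i ∧ x i (Fin.last (n i)) = v ∧
              ∀ m : Fin (n i), tl (e i m) = x i m.castSucc ∧ hd (e i m) = x i m.succ) ∧
          (∀ i j, i ≠ j → v ∈ U i → v ∈ U j →
              Disjoint (Set.range (e i)) (Set.range (e j)) ∧
              Set.range (x i) ∩ Set.range (x j) = ({v} : Set V) ∪ ({r i} ∩ {r j})))) := by
  intro V E _ _ tl hd hfex k r U hrU hconv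
  classical
  obtain ⟨f, hf⟩ := hfex
  constructor
  · rintro ⟨F, h1, h2, h3, h4⟩ v
    have hex : ∀ i, ∃ (n : ℕ) (x : Fin (n+1) → V) (e : Fin n → E), v ∈ U i →
        (x 0 = r i ∧ x (Fin.last n) = v ∧
          ∀ m : Fin n, e m ∈ F i ∧ tl (e m) = x m.castSucc ∧ hd (e m) = x m.succ) := by
      intro i
      by_cases hv : v ∈ U i
      · obtain ⟨n, x, e, h⟩ := h3 i v hv
        exact ⟨n, x, e, fun _ => h⟩
      · exact ⟨0, fun _ => v, Fin.elim0, fun h => absurd h hv⟩
    choose n x e h using hex
    refine ⟨n, x, e, ?_, ?_⟩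
    · intro i hi
      exact ⟨(h i hi).1, (h i hi).2.1, fun m => ((h i hi).2.2 m).2⟩
    · intro i j hij hi hj
      exact h4 v i j hij hi hj (n i) (x i) (e i) (n j) (x j) (e j) (h i hi).1 (h i hi).2.1
        (h i hi).2.2 (h j hj).1 (h j hj).2.1 (h j hj).2.2
  · intro hb
    by_cases hE : Nonempty E
    · have hcv : ∀ j z y v, z ∈ U j → v ∈ U j →
          Relation.ReflTransGen (W274.Arb.StepIn tl hd Set.univ) z y →
          Relation.ReflTransGen (W274.Arb.StepIn tl hd Set.univ) y v → y ∈ U j := by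
        intro j z y v hz hv h1 h2
        obtain ⟨n, x, e, hw, h0, hl, m, hm⟩ := W274.Arb.walk_through tl hd Set.univ z y v h1 h2
        rw [← hm]
        exact hconv j n x e (fun m => (hw m).2) (by rw [h0]; exact hz) (by rw [hl]; exact hv) m
      have hloc : ∀ v, ∃ a : Fin k → E,
          (∀ i, W274.Arb.Act r U v i → hd (a i) = v ∧ tl (a i) ∈ U i) ∧
          (∀ i j, i ≠ j → W274.Arb.Act r U v i → W274.Arb.Act r U v j → a i ≠ a j) ∧
          (∀ i j, i ≠ j → W274.Arb.Act r U v i → W274.Arb.Act r U v j → tl (a i) = tl (a j) →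
            tl (a i) = r i) ∧
          (∀ i j, i ≠ j → W274.Arb.Act r U v i → W274.Arb.Act r U v j → tl (a i) = r j →
            r i = r j) := by
        intro v
        obtain ⟨n, x, e, hw, hd'⟩ := hb v
        have hlast : ∀ i, ∃ b : E, W274.Arb.Act r U v i → hd b = v ∧ tl b ∈ U i ∧
            b ∈ Set.range (e i) ∧ tl b ∈ Set.range (x i) ∧ r i ∈ Set.range (x i) := by
          intro i
          by_cases hA : W274.Arb.Act r U v i
          · obtain ⟨h0, hl, hs⟩ := hw i hA.1
            have hn : n i ≠ 0 := by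
              intro hn
              apply hA.2
              rw [← h0, ← hl]
              congr 1
              apply Fin.ext
              simp [hn]
            have hlt : n i - 1 < n i := by omega
            have hs1 := hs ⟨n i - 1, hlt⟩
            have hsucc : (⟨n i - 1, hlt⟩ : Fin (n i)).succ = Fin.last (n i) := by
              apply Fin.ext
              simp
              omega
            refine ⟨e i ⟨n i - 1, hlt⟩, fun _ => ⟨?_, ?_, ⟨_, rfl⟩, ⟨_, hs1.1.symm⟩, ⟨0, h0⟩⟩⟩
            · rw [hs1.2, hsucc, hl]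
            · rw [hs1.1]
              exact hconv i (n i) (x i) (e i) hs (by rw [h0]; exact hrU i)
                (by rw [hl]; exact hA.1) _
          · exact ⟨hE.some, fun h => absurd h hA⟩
        choose a ha using hlast
        have hne : ∀ i, W274.Arb.Act r U v i → tl (a i) ≠ v := by
          intro i hi h
          have := hf (a i)
          rw [(ha i hi).1, h] at this
          exact lt_irrefl _ this
        refine ⟨a, fun i hi => ⟨(ha i hi).1, (ha i hi).2.1⟩, ?_, ?_, ?_⟩
        · intro i j hij hi hj heq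
          have h1 := (hd' i j hij hi.1 hj.1).1
          exact Set.disjoint_left.mp h1 (ha i hi).2.2.1 (heq ▸ (ha j hj).2.2.1)
        · intro i j hij hi hj heq
          have h1 := (hd' i j hij hi.1 hj.1).2
          have h2 : tl (a i) ∈ Set.range (x i) ∩ Set.range (x j) :=
            ⟨(ha i hi).2.2.2.1, heq ▸ (ha j hj).2.2.2.1⟩
          rw [h1] at h2
          rcases h2 with h2 | h2
          · exact absurd h2 (hne i hi)
          · exact h2.1
        · intro i j hij hi hj heq
          have h1 := (hd' i j hij hi.1 hj.1).2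
          have h2 : r j ∈ Set.range (x i) ∩ Set.range (x j) :=
            ⟨heq ▸ (ha i hi).2.2.2.1, (ha j hj).2.2.2.2⟩
          rw [h1] at h2
          rcases h2 with h2 | h2
          · exact absurd h2.symm hj.2
          · exact h2.1.symm
      choose a ha1 ha2 ha3 ha4 using hloc
      obtain ⟨P, w, hPw⟩ := W274.Arb.exists_good tl hd r U f hf a ha1 ha2 ha3 ha4
        (Finset.univ.sup f + 1)
      have hg : ∀ v, W274.Arb.GoodAt tl hd r U (P v) w (w v) v := fun v =>
        hPw v (Nat.lt_succ_of_le (Finset.le_sup (Finset.mem_univ v)))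
      refine ⟨fun i => W274.Arb.Fs r U P i, ?_, ?_, ?_, ?_⟩
      · rintro i b ⟨v, hv, rfl⟩
        have h := hg v i hv
        exact ⟨h.2.1, by rw [h.1]; exact hv.1, by rw [h.1]; exact hv.2⟩
      · rintro i b ⟨v, hv, rfl⟩ b' ⟨v', hv', rfl⟩ heq
        rw [(hg v i hv).1, (hg v' i hv').1] at heq
        rw [heq]
      · intro i u hu
        have h := W274.Arb.root_reach hf hg i (f u + 1) u (Nat.lt_succ_self _) hu
        obtain ⟨n, x, e, hw, h0, hl⟩ := W274.Arb.walk_of_rtg tl hd _ _ _ h
        exact ⟨n, x, e, h0, hl, hw⟩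
      · intro v i j hij hvi hvj n₁ x₁ e₁ n₂ x₂ e₂ h10 h1l h1w h20 h2l h2w
        have hset : Set.range x₁ ∩ Set.range x₂ = ({v} : Set V) ∪ ({r i} ∩ {r j}) := by
          apply Set.Subset.antisymm
          · rintro z ⟨⟨m₁, hm₁⟩, ⟨m₂, hm₂⟩⟩
            by_cases hzv : z = v
            · left; exact hzv
            · right
              have hi := W274.Arb.rtg_of_walk tl hd _ n₁ x₁ e₁ h1w m₁
              have hj := W274.Arb.rtg_of_walk tl hd _ n₂ x₂ e₂ h2w m₂
              rw [hm₁, h1l] at hi
              rw [hm₂, h2l] at hj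
              obtain ⟨h5, h6⟩ := W274.Arb.K hf hcv hg i j hij z v hi hj hzv hvi hvj
              exact ⟨h5, h5.trans h6⟩
          · rintro z (hz | ⟨hz1, hz2⟩)
            · rw [Set.mem_singleton_iff] at hz
              subst hz
              exact ⟨⟨_, h1l⟩, ⟨_, h2l⟩⟩
            · rw [Set.mem_singleton_iff] at hz1 hz2
              exact ⟨⟨0, h10.trans hz1.symm⟩, ⟨0, h20.trans hz2.symm⟩⟩
        refine ⟨?_, hset⟩
        rw [Set.disjoint_left]
        rintro b ⟨m₁, hm₁⟩ ⟨m₂, hm₂⟩
        have hb1 : b ∈ W274.Arb.Fs r U P i := hm₁ ▸ (h1w m₁).1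
        have hb2 : b ∈ W274.Arb.Fs r U P j := hm₂ ▸ (h2w m₂).1
        obtain ⟨y1, hy1, hb1'⟩ := hb1
        obtain ⟨y2, hy2, hb2'⟩ := hb2
        have e1 : hd b = y1 := by rw [hb1']; exact (hg y1 i hy1).1
        have e2 : hd b = y2 := by rw [hb2']; exact (hg y2 j hy2).1
        have hmem : hd b ∈ Set.range x₁ ∩ Set.range x₂ :=
          ⟨⟨m₁.succ, by rw [← (h1w m₁).2.2, hm₁]⟩, ⟨m₂.succ, by rw [← (h2w m₂).2.2, hm₂]⟩⟩
        rw [hset] at hmem
        rcases hmem with hmem | hmem
        · have hmem' : hd b = v := hmem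
          have ev1 : y1 = v := e1.symm.trans hmem'
          have ev2 : y2 = v := e2.symm.trans hmem'
          subst ev1
          subst ev2
          exact ((hg y2 i hy1).2.2 j (Ne.symm hij) hy2).1 (hb1'.symm.trans hb2')
        · have : hd b = r i := hmem.1
          rw [e1] at this
          exact hy1.2 this
    · rw [not_nonempty_iff] at hE
      refine ⟨fun _ => ∅, ?_, ?_, ?_, ?_⟩
      · intro i b hb'; exact absurd hb' (Set.notMem_empty _)
      · intro i b hb'; exact absurd hb' (Set.notMem_empty _)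
      · intro i u hu
        obtain ⟨n, x, e, hw, -⟩ := hb u
        obtain ⟨h0, hl, hs⟩ := hw i hu
        exact ⟨n i, x i, e i, h0, hl, fun m => isEmptyElim (e i m)⟩
      · intro v i j hij hvi hvj n₁ x₁ e₁ n₂ x₂ e₂ h10 h1l h1w h20 h2l h2w
        have hn1 : n₁ = 0 := by
          rcases Nat.eq_zero_or_pos n₁ with h | h
          · exact h
          · exact isEmptyElim (e₁ ⟨0, h⟩)
        have hn2 : n₂ = 0 := by
          rcases Nat.eq_zero_or_pos n₂ with h | h
          · exact h
          · exact isEmptyElim (e₂ ⟨0, h⟩)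
        subst hn1
        subst hn2
        have hx1 : Set.range x₁ = {v} := by
          ext z
          simp only [Set.mem_range, Set.mem_singleton_iff]
          constructor
          · rintro ⟨m, rfl⟩
            rw [← h1l]; congr 1; apply Fin.ext; omega
          · rintro rfl; exact ⟨_, h1l⟩
        have hx2 : Set.range x₂ = {v} := by
          ext z
          simp only [Set.mem_range, Set.mem_singleton_iff]
          constructor
          · rintro ⟨m, rfl⟩
            rw [← h2l]; congr 1; apply Fin.ext; omega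
          · rintro rfl; exact ⟨_, h2l⟩
        have hri : r i = v := by rw [← h10, ← h1l]; congr 1
        refine ⟨?_, ?_⟩
        · rw [Set.disjoint_left]
          rintro b _
          exact isEmptyElim b
        · rw [hx1, hx2, hri]
          ext z
          simp only [Set.mem_inter_iff, Set.mem_singleton_iff, Set.mem_union]
          tauto

end Pool.Agent.W767.AR
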